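import Pool.Agent.N656.MH.Stm

/-!
Project MH (helper656), leaf LOG (helper865): the convergence part of the metric theorem on
`dn (β n ^ α)` and the functions `1 / (n (log n) ^ (1 + ε))`.
-/

set_option autoImplicit false

namespace Pool.Agent.N865.MH

open Filter MeasureTheory Set Pool.Agent.N656.MH

/-- covering of the bad set -/
theorem cover (T a d : ℝ) (hT : 0 ≤ T) (ha : 1 ≤ a) :
    {β : ℝ | β ∈ Icc (-T) T ∧ dn (β * a) < d} ⊆
      ⋃ k ∈ Finset.Icc (-(⌊T * a⌋₊ + 1 : ℤ)) (⌊T * a⌋₊ + 1 : ℤ),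
        Metric.ball ((k : ℝ) / a) (d / a) := by
  intro β hβ
  obtain ⟨⟨h1, h2⟩, h3⟩ := hβ
  have ha0 : 0 < a := by linarith
  have hTa : 0 ≤ T * a := by positivity
  have h4 : T * a < (⌊T * a⌋₊ : ℝ) + 1 := Nat.lt_floor_add_one _
  have h5 : |β * a - round (β * a)| ≤ 1 / 2 := abs_sub_round _
  have h6 := abs_le.1 h5
  have h7 : β * a ≤ T * a := mul_le_mul_of_nonneg_right h2 ha0.le
  have h8 : (-T) * a ≤ β * a := mul_le_mul_of_nonneg_right h1 ha0.le
  rw [mem_iUnion₂]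
  refine ⟨round (β * a), ?_, ?_⟩
  · rw [Finset.mem_Icc]
    constructor
    · by_contra h
      push Not at h
      have h9 : round (β * a) + 1 ≤ -(⌊T * a⌋₊ + 1 : ℤ) := h
      have h10 : ((round (β * a) : ℤ) : ℝ) + 1 ≤ -((⌊T * a⌋₊ : ℝ) + 1) := by exact_mod_cast h9
      linarith
    · by_contra h
      push Not at h
      have h9 : (⌊T * a⌋₊ + 1 : ℤ) + 1 ≤ round (β * a) := h
      have h10 : ((⌊T * a⌋₊ : ℝ) + 1) + 1 ≤ ((round (β * a) : ℤ) : ℝ) := by exact_mod_cast h9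
      linarith
  · rw [Metric.mem_ball, Real.dist_eq]
    have h9 : β - (round (β * a) : ℝ) / a = (β * a - round (β * a)) / a := by
      field_simp
    rw [h9, abs_div, abs_of_pos ha0]
    exact div_lt_div_of_pos_right h3 ha0

theorem vol_le (T a d : ℝ) (hT : 0 ≤ T) (ha : 1 ≤ a) (hd : 0 ≤ d) :
    volume {β : ℝ | β ∈ Icc (-T) T ∧ dn (β * a) < d} ≤ ENNReal.ofReal ((4 * T + 6) * d) := by
  have ha0 : 0 < a := by linarith
  refine (measure_mono (cover T a d hT ha)).trans ?_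
  refine (measure_biUnion_finset_le _ _).trans ?_
  have h1 : ∀ k : ℤ, volume (Metric.ball ((k : ℝ) / a) (d / a)) = ENNReal.ofReal (2 * (d / a)) :=
    fun k => Real.volume_ball _ _
  simp only [h1]
  rw [Finset.sum_const, Int.card_Icc, nsmul_eq_mul]
  have h2 : (((⌊T * a⌋₊ + 1 : ℤ) + 1 - -(⌊T * a⌋₊ + 1 : ℤ)).toNat : ENNReal) =
      ENNReal.ofReal (2 * (⌊T * a⌋₊ : ℝ) + 3) := by
    have h3 : ((⌊T * a⌋₊ + 1 : ℤ) + 1 - -(⌊T * a⌋₊ + 1 : ℤ)).toNat = 2 * ⌊T * a⌋₊ + 3 := by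
      omega
    rw [h3]
    have h4 : (2 * (⌊T * a⌋₊ : ℝ) + 3) = ((2 * ⌊T * a⌋₊ + 3 : ℕ) : ℝ) := by push_cast; ring
    rw [h4, ENNReal.ofReal_natCast]
  rw [h2, ← ENNReal.ofReal_mul (by positivity)]
  apply ENNReal.ofReal_le_ofReal
  have h5 : (⌊T * a⌋₊ : ℝ) ≤ T * a := Nat.floor_le (by positivity)
  have h6 : (2 * (⌊T * a⌋₊ : ℝ) + 3) ≤ (2 * T + 3) * a := by nlinarith
  calc (2 * (⌊T * a⌋₊ : ℝ) + 3) * (2 * (d / a)) ≤ ((2 * T + 3) * a) * (2 * (d / a)) :=
        mul_le_mul_of_nonneg_right h6 (by positivity)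
    _ = (4 * T + 6) * d := by field_simp; ring

/-- CONV -/
theorem conv : S_CONV := by
  intro α hα ψ hψ hs
  have key : ∀ T : ℕ, ∀ᵐ β : ℝ, ∀ᶠ n : ℕ in atTop,
      β ∉ {β : ℝ | β ∈ Icc (-(T : ℝ)) T ∧ dn (β * (((n + 1 : ℕ) : ℝ)) ^ α) < ψ (n + 1)} := by
    intro T
    apply ae_eventually_notMem
    have h1 : ∀ n : ℕ, volume {β : ℝ | β ∈ Icc (-(T : ℝ)) T ∧
        dn (β * (((n + 1 : ℕ) : ℝ)) ^ α) < ψ (n + 1)} ≤
        ENNReal.ofReal ((4 * (T : ℝ) + 6) * ψ (n + 1)) := by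
      intro n
      apply vol_le _ _ _ (Nat.cast_nonneg _) _ (hψ _)
      apply Real.one_le_rpow
      · push_cast
        have : (0 : ℝ) ≤ n := Nat.cast_nonneg _
        linarith
      · linarith
    have h2 : Summable fun n : ℕ => (4 * (T : ℝ) + 6) * ψ (n + 1) :=
      ((summable_nat_add_iff 1).2 hs).mul_left _
    refine ne_top_of_le_ne_top ?_ (ENNReal.tsum_le_tsum h1)
    rw [← ENNReal.ofReal_tsum_of_nonneg _ h2]
    · exact ENNReal.ofReal_ne_top
    · intro n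
      have := hψ (n + 1)
      positivity
  rw [← ae_all_iff] at key
  filter_upwards [key] with β hβ
  obtain ⟨T, hT⟩ := exists_nat_ge |β|
  have h1 := hβ T
  rw [eventually_atTop] at h1 ⊢
  obtain ⟨N, hN⟩ := h1
  refine ⟨N + 1, ?_⟩
  intro n hn
  obtain ⟨m, rfl⟩ : ∃ m, n = m + 1 := ⟨n - 1, by omega⟩
  have h2 := hN m (by omega)
  by_contra h3
  push Not at h3
  exact h2 ⟨abs_le.1 hT, h3⟩

/-- the logarithmic function is summable -/
theorem summable_log (ε : ℝ) (hε : 0 < ε) :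
    Summable fun n : ℕ => 1 / ((n : ℝ) * (Real.log n) ^ (1 + ε)) := by
  have h0 : ∀ n : ℕ, 0 ≤ 1 / ((n : ℝ) * (Real.log n) ^ (1 + ε)) := by
    intro n
    have h1 : 0 ≤ Real.log (n : ℝ) := Real.log_natCast_nonneg n
    positivity
  rw [← summable_condensed_iff_of_eventually_nonneg (Eventually.of_forall h0)]
  · have h1 : (fun k : ℕ => (2 : ℝ) ^ k * (1 / (((2 ^ k : ℕ) : ℝ) *
        (Real.log ((2 ^ k : ℕ) : ℝ)) ^ (1 + ε)))) =
        fun k : ℕ => (1 / (Real.log 2) ^ (1 + ε)) * (1 / (k : ℝ) ^ (1 + ε)) := by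
      funext k
      push_cast
      rw [Real.log_pow, Real.mul_rpow (Nat.cast_nonneg k) (Real.log_nonneg (by norm_num))]
      have h2 : (0 : ℝ) < 2 ^ k := by positivity
      field_simp
    rw [h1]
    apply Summable.mul_left
    rw [Real.summable_one_div_nat_rpow]
    linarith
  · filter_upwards [eventually_ge_atTop 2] with k hk
    have hk' : (2 : ℝ) ≤ k := by exact_mod_cast hk
    have h1 : 0 < Real.log (k : ℝ) := Real.log_pos (by linarith)
    have h2 : Real.log (k : ℝ) ≤ Real.log ((k + 1 : ℕ) : ℝ) := by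
      apply Real.log_le_log (by linarith)
      push_cast
      linarith
    have h3 : 0 < (Real.log (k : ℝ)) ^ (1 + ε) := Real.rpow_pos_of_pos h1 _
    have h4 : (Real.log (k : ℝ)) ^ (1 + ε) ≤ (Real.log ((k + 1 : ℕ) : ℝ)) ^ (1 + ε) :=
      Real.rpow_le_rpow h1.le h2 (by linarith)
    apply one_div_le_one_div_of_le
    · positivity
    · push_cast at h4 ⊢
      apply mul_le_mul (by linarith) h4 h3.le (by linarith)

/-- LOG -/
theorem log : S_LOG := by
  intro α hα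
  have key : ∀ j : ℕ, ∀ᵐ β : ℝ, ∀ᶠ n : ℕ in atTop,
      1 / ((n : ℝ) * (Real.log n) ^ (1 + 1 / ((j : ℝ) + 1))) ≤ dn (β * (n : ℝ) ^ α) := by
    intro j
    apply conv α hα
    · intro n
      have h1 : 0 ≤ Real.log (n : ℝ) := Real.log_natCast_nonneg n
      positivity
    · exact summable_log _ (by positivity)
  rw [← ae_all_iff] at key
  filter_upwards [key] with β hβ ε hε
  obtain ⟨j, hj⟩ := exists_nat_one_div_lt hε
  filter_upwards [hβ j, eventually_ge_atTop 3] with n h1 h2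
  refine le_trans ?_ h1
  have h3 : (3 : ℝ) ≤ n := by exact_mod_cast h2
  have h4 : 1 ≤ Real.log (n : ℝ) := by
    rw [Real.le_log_iff_exp_le (by linarith)]
    have := Real.exp_one_lt_d9
    linarith
  have h5 : (Real.log (n : ℝ)) ^ (1 + 1 / ((j : ℝ) + 1)) ≤ (Real.log (n : ℝ)) ^ (1 + ε) :=
    Real.rpow_le_rpow_of_exponent_le h4 (by linarith)
  have h6 : 0 < (Real.log (n : ℝ)) ^ (1 + 1 / ((j : ℝ) + 1)) :=
    Real.rpow_pos_of_pos (by linarith) _
  apply one_div_le_one_div_of_le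
  · have : 0 < (n : ℝ) := by linarith
    positivity
  · exact mul_le_mul_of_nonneg_left h5 (by linarith)

end Pool.Agent.N865.MH
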